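import Pool.Agent.helper51.PC.Spec

/-!
# Row pc:RAM
-/

set_option autoImplicit false

namespace Pool.Agent.PC

open MvPolynomial

universe u

section
variable {K : Type u} [Field K] {v : K → ℤ}

theorem RAM_one (hv : DVal v) : v 1 = 0 := by
  have := hv.mul 1 1 one_ne_zero one_ne_zero
  rw [mul_one] at this
  omega

theorem RAM_pow (hv : DVal v) {a : K} (ha : a ≠ 0) (n : ℕ) : v (a ^ n) = n * v a := by
  induction n with
  | zero => rw [pow_zero, RAM_one hv]; simp
  | succ n ih =>
    rw [pow_succ, hv.mul _ _ (pow_ne_zero _ ha) ha, ih]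
    push_cast
    ring

theorem RAM_add (hv : DVal v) {r : ℤ} {x y : K} (hx : Ge v r x) (hy : Ge v r y) :
    Ge v r (x + y) := by
  by_cases hx0 : x = 0
  · rwa [hx0, zero_add]
  by_cases hy0 : y = 0
  · rwa [hy0, add_zero]
  by_cases h0 : x + y = 0
  · exact Or.inl h0
  · right
    have h1 := hx.resolve_left hx0
    have h2 := hy.resolve_left hy0
    exact (le_min h1 h2).trans (hv.add x y hx0 hy0 h0)

theorem RAM_sum (hv : DVal v) {r : ℤ} {ι : Type} (t : Finset ι) (f : ι → K)
    (h : ∀ i ∈ t, Ge v r (f i)) : Ge v r (∑ i ∈ t, f i) := by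
  classical
  induction t using Finset.induction_on with
  | empty => left; simp
  | insert a t ha ih =>
    rw [Finset.sum_insert ha]
    exact RAM_add hv (h a (Finset.mem_insert_self _ _))
      (ih fun i hi => h i (Finset.mem_insert_of_mem hi))

theorem RAM_nat (hv : DVal v) {r : ℤ} {x : K} (hx : Ge v r x) (n : ℕ) : Ge v r (x * n) := by
  induction n with
  | zero => left; simp
  | succ n ih =>
    push_cast
    rw [mul_add, mul_one]
    exact RAM_add hv ih hx

theorem RAM_mono {r r' : ℤ} (h : r' ≤ r) {x : K} (hx : Ge v r x) : Ge v r' x := by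
  rcases hx with hx | hx
  · exact Or.inl hx
  · exact Or.inr (h.trans hx)

theorem RAM_term (hv : DVal v) {a c : K} {m r : ℤ} (ha : a ≠ 0) (hm : 0 < m) (hva : v a = -m)
    {i l : ℕ} (hl : l < i) (h : Ge v r (c * a ^ i)) : Ge v (r + m) (c * a ^ l) := by
  by_cases hc : c = 0
  · left; rw [hc, zero_mul]
  · right
    have h1 := h.resolve_left (mul_ne_zero hc (pow_ne_zero _ ha))
    rw [hv.mul _ _ hc (pow_ne_zero _ ha), RAM_pow hv ha, hva] at h1 ⊢
    have h2 : (l : ℤ) + 1 ≤ i := by exact_mod_cast hl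
    nlinarith

end

/-- RAM. -/
theorem RAM (hEXP : EXP_stmt.{u}) : RAM_stmt.{u} := by
  intro K _ p _ _ s v hv hs a m hsa ha hm hva hNB r y hy
  obtain ⟨c, hc, rfl⟩ := hEXP K p s hs a hsa y
  have h1 := hNB c hc r hy
  have h2 : s (∑ i, c i * a ^ (i : ℕ)) - ∑ i, c i * a ^ (i : ℕ) =
      ∑ i : Fin p, ∑ l ∈ Finset.range (i : ℕ), c i * a ^ l * (((i : ℕ).choose l : ℕ) : K) := by
    rw [map_sum, ← Finset.sum_sub_distrib]
    refine Finset.sum_congr rfl fun i _ => ?_
    rw [map_mul, map_pow, hc, hsa, add_pow, Finset.sum_range_succ]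
    simp only [one_pow, mul_one, Nat.choose_self, Nat.cast_one, Nat.sub_self]
    rw [mul_add, add_sub_cancel_right, Finset.mul_sum]
    exact Finset.sum_congr rfl fun l _ => by rw [mul_assoc]
  rw [h2]
  refine RAM_sum hv _ _ fun i _ => RAM_sum hv _ _ fun l hl => ?_
  rw [Finset.mem_range] at hl
  exact RAM_nat hv (RAM_term hv ha hm hva hl (h1 i)) _

end Pool.Agent.PC
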